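import Pool.Agent.Lib_helper97.SN.Eig

set_option autoImplicit false

open Matrix

namespace Pool.Agent.Lib_helper97.SN

open Pool.Agent.Results.MP_c77999_an.StrictMono

theorem ew_gen {G : Type*} [Fintype G] [DecidableEq G] (b : ℕ) (hb : 2 ≤ b)
    (hc : Fintype.card G = b) (M : Matrix (Fin 2 × G) (Fin 2 × G) ℝ)
    (hM : ∀ p q, M p q = 1 ∨ M p q = -1)
    (hG : ∀ p q, (M * Mᵀ) p q = if p = q then 2 * (b : ℝ) else if p.1 = q.1 then 2 else 0) :
    √(2 * (b : ℝ) - 1) < r (2 * b) := by
  have hb2 : (2 : ℝ) ≤ b := by exact_mod_cast hb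
  have hb0 : (b : ℝ) ≠ 0 := by positivity
  obtain ⟨P, hP⟩ : ∃ P : Matrix (Fin 2 × G) (Fin 2 × G) ℝ,
      ∀ p q, P p q = if p.1 = q.1 then 1 / (b : ℝ) else 0 :=
    ⟨fun p q => if p.1 = q.1 then 1 / (b : ℝ) else 0, fun _ _ => rfl⟩
  have hPt : Pᵀ = P := by
    ext p q
    rw [Matrix.transpose_apply, hP, hP]
    by_cases h : p.1 = q.1
    · rw [if_pos h, if_pos h.symm]
    · rw [if_neg h, if_neg (Ne.symm h)]
  have hPP : P * P = P := by
    ext p q
    rw [Matrix.mul_apply, Fintype.sum_prod_type, hP]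
    have e : ∀ x : Fin 2, ∑ y : G, P p (x, y) * P (x, y) q =
        if p.1 = x then (if x = q.1 then 1 / (b : ℝ) else 0) else 0 := by
      intro x
      by_cases h1 : p.1 = x
      · by_cases h2 : x = q.1
        · rw [if_pos h1, if_pos h2]
          have : ∀ y : G, P p (x, y) * P (x, y) q = 1 / (b : ℝ) * (1 / (b : ℝ)) := by
            intro y
            rw [hP, hP, if_pos h1, if_pos h2]
          rw [Finset.sum_congr rfl fun y _ => this y, Finset.sum_const, Finset.card_univ,
            hc, nsmul_eq_mul]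
          field_simp
        · rw [if_pos h1, if_neg h2]
          refine Finset.sum_eq_zero fun y _ => ?_
          rw [hP (x, y) q, if_neg h2, mul_zero]
      · rw [if_neg h1]
        refine Finset.sum_eq_zero fun y _ => ?_
        rw [hP p (x, y), if_neg h1, zero_mul]
    rw [Finset.sum_congr rfl fun x _ => e x, Finset.sum_ite_eq]
    simp
  have htr : P.trace = 2 := by
    rw [Matrix.trace, Fintype.sum_prod_type]
    have : ∀ (x : Fin 2) (y : G), P.diag (x, y) = 1 / (b : ℝ) := by
      intro x y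
      rw [Matrix.diag_apply, hP, if_pos rfl]
    simp only [this, Finset.sum_const, Finset.card_univ, Fintype.card_fin, hc, nsmul_eq_mul]
    push_cast
    field_simp
  have hG' : M * Mᵀ = (2 * (b : ℝ) - 2) • (1 - P) + (4 * (b : ℝ) - 2) • P := by
    ext p q
    rw [hG, Matrix.add_apply, Matrix.smul_apply, Matrix.smul_apply, Matrix.sub_apply,
      Matrix.one_apply, hP, smul_eq_mul, smul_eq_mul]
    by_cases h1 : p = q
    · rw [if_pos h1, if_pos h1, if_pos (by rw [h1])]
      field_simp
      ring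
    · rw [if_neg h1, if_neg h1]
      by_cases h2 : p.1 = q.1
      · rw [if_pos h2, if_pos h2]
        field_simp
        ring
      · rw [if_neg h2, if_neg h2]
        ring
  have key := two_eig (2 * b) (by omega) (by simp [hc]) M P hM hPt hPP 2 (2 * (b : ℝ) - 2)
    (4 * (b : ℝ) - 2) htr (by linarith) (by linarith) hG'
  have h1 := ew_ineq (2 * (b : ℝ)) (by linarith)
  rw [show 2 * (2 * (b : ℝ)) - 2 = 4 * (b : ℝ) - 2 by ring] at h1
  push_cast at key
  exact lt_of_lt_of_le h1 key

theorem ew_group {G : Type*} [AddCommGroup G] [Fintype G] [DecidableEq G] (l : ℕ)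
    (hl : Fintype.card G = l) (h2 : 2 ≤ l) (a b : G → ℝ) (ha : ∀ g, a g = 1 ∨ a g = -1)
    (hb : ∀ g, b g = 1 ∨ b g = -1)
    (h : ∀ g, g ≠ 0 → ∑ x, (a x * a (x + g) + b x * b (x + g)) = 2) :
    √(2 * (l : ℝ) - 1) < r (2 * l) := by
  obtain ⟨M, hMd⟩ : ∃ M : Matrix (Fin 2 × G) (Fin 2 × G) ℝ, ∀ p q, M p q =
      if p.1 = 0 then (if q.1 = 0 then a (q.2 - p.2) else b (q.2 - p.2))
      else (if q.1 = 0 then -b (p.2 - q.2) else a (p.2 - q.2)) :=
    ⟨fun p q => if p.1 = 0 then (if q.1 = 0 then a (q.2 - p.2) else b (q.2 - p.2))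
      else (if q.1 = 0 then -b (p.2 - q.2) else a (p.2 - q.2)), fun _ _ => rfl⟩
  have hM : ∀ p q, M p q = 1 ∨ M p q = -1 := by
    intro p q
    rw [hMd]
    split_ifs
    · exact ha _
    · exact hb _
    · rcases hb (p.2 - q.2) with h' | h' <;> rw [h'] <;> norm_num
    · exact ha _
  have sqa : ∀ g, a g * a g = 1 := fun g => by rcases ha g with h' | h' <;> rw [h'] <;> norm_num
  have sqb : ∀ g, b g * b g = 1 := fun g => by rcases hb g with h' | h' <;> rw [h'] <;> norm_num
  have hcor : ∀ g, ∑ x, (a x * a (x + g) + b x * b (x + g)) =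
      if g = 0 then 2 * (l : ℝ) else 2 := by
    intro g
    by_cases hg : g = 0
    · rw [if_pos hg, hg]
      simp only [add_zero, sqa, sqb, Finset.sum_const, Finset.card_univ, hl, nsmul_eq_mul]
      ring
    · rw [if_neg hg, h g hg]
  have h00 : ∀ x x' : G, ∑ y, (a (y - x) * a (y - x') + b (y - x) * b (y - x')) =
      if x = x' then 2 * (l : ℝ) else 2 := by
    intro x x'
    rw [← Equiv.sum_comp (Equiv.addRight x)]
    have e : ∀ z : G, a ((Equiv.addRight x) z - x) * a ((Equiv.addRight x) z - x') +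
        b ((Equiv.addRight x) z - x) * b ((Equiv.addRight x) z - x') =
        a z * a (z + (x - x')) + b z * b (z + (x - x')) := by
      intro z
      rw [Equiv.coe_addRight, show z + x - x = z by abel, show z + x - x' = z + (x - x') by abel]
    rw [Finset.sum_congr rfl fun z _ => e z, hcor]
    simp only [sub_eq_zero]
  have h11 : ∀ x x' : G, ∑ y, (b (x - y) * b (x' - y) + a (x - y) * a (x' - y)) =
      if x = x' then 2 * (l : ℝ) else 2 := by
    intro x x'
    rw [← (Equiv.subLeft x).sum_comp]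
    have e : ∀ z : G, b (x - (Equiv.subLeft x) z) * b (x' - (Equiv.subLeft x) z) +
        a (x - (Equiv.subLeft x) z) * a (x' - (Equiv.subLeft x) z) =
        a z * a (z + (x' - x)) + b z * b (z + (x' - x)) := by
      intro z
      rw [Equiv.subLeft_apply, show x - (x - z) = z by abel,
        show x' - (x - z) = z + (x' - x) by abel]
      ring
    rw [Finset.sum_congr rfl fun z _ => e z, hcor]
    simp only [sub_eq_zero, eq_comm]
  have h01 : ∀ x x' : G, ∑ y, a (y - x) * b (x' - y) = ∑ y, b (y - x) * a (x' - y) := by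
    intro x x'
    rw [← (Equiv.subLeft (x + x')).sum_comp]
    refine Finset.sum_congr rfl fun z _ => ?_
    rw [Equiv.subLeft_apply, show x + x' - z - x = x' - z by abel,
      show x' - (x + x' - z) = z - x by abel]
    ring
  refine ew_gen l h2 hl M hM ?_
  rintro ⟨p, x⟩ ⟨q, x'⟩
  rw [Matrix.mul_apply, Fintype.sum_prod_type, Fin.sum_univ_two]
  simp only [Matrix.transpose_apply, hMd]
  have hp : p = 0 ∨ p = 1 := by fin_cases p <;> simp
  have hq : q = 0 ∨ q = 1 := by fin_cases q <;> simp
  have h10 : (1 : Fin 2) ≠ 0 := by decide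
  rcases hp with rfl | rfl <;> rcases hq with rfl | rfl
  · have := h00 x x'
    rw [Finset.sum_add_distrib] at this
    simp only [if_true, if_neg h10, Prod.mk.injEq, true_and, this]
  · simp only [if_true, if_neg h10, Prod.mk.injEq, h10.symm, false_and, if_false]
    have := h01 x x'
    simp only [mul_neg, Finset.sum_neg_distrib]
    rw [this]; ring
  · simp only [if_true, if_neg h10, Prod.mk.injEq, h10, false_and, if_false]
    have := h01 x' x
    have e1 : ∑ y, -b (x - y) * a (y - x') = -∑ y, a (y - x') * b (x - y) := by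
      rw [← Finset.sum_neg_distrib]
      exact Finset.sum_congr rfl fun y _ => by ring
    have e2 : ∑ y, a (x - y) * b (y - x') = ∑ y, b (y - x') * a (x - y) :=
      Finset.sum_congr rfl fun y _ => by ring
    rw [e1, e2, this]; ring
  · have := h11 x x'
    rw [Finset.sum_add_distrib] at this
    simp only [if_true, if_neg h10, Prod.mk.injEq, true_and, neg_mul_neg, this]

end Pool.Agent.Lib_helper97.SN
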