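import Pool.Agent.Lib_helper97.SN.Eig

set_option autoImplicit false

open Matrix

namespace Pool.Agent.Lib_helper97.SN

open Pool.Agent.Results.MP_c77999_an.StrictMono

theorem ew_order (b : ℕ) (hb : 2 ≤ b) (M : Matrix (Fin 2 × Fin b) (Fin 2 × Fin b) ℝ)
    (hM : ∀ p q, M p q = 1 ∨ M p q = -1)
    (hG : ∀ p q, (M * Mᵀ) p q = if p = q then 2 * (b : ℝ) else if p.1 = q.1 then 2 else 0) :
    √(2 * (b : ℝ) - 1) < r (2 * b) := by
  have hb2 : (2 : ℝ) ≤ b := by exact_mod_cast hb
  have hb0 : (b : ℝ) ≠ 0 := by positivity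
  obtain ⟨P, hP⟩ : ∃ P : Matrix (Fin 2 × Fin b) (Fin 2 × Fin b) ℝ,
      ∀ p q, P p q = if p.1 = q.1 then 1 / (b : ℝ) else 0 :=
    ⟨fun p q => if p.1 = q.1 then 1 / (b : ℝ) else 0, fun _ _ => rfl⟩
  have hPt : Pᵀ = P := by
    ext p q
    rw [Matrix.transpose_apply, hP, hP]
    by_cases h : p.1 = q.1
    · rw [if_pos h, if_pos h.symm]
    · rw [if_neg h, if_neg (Ne.symm h)]
  have hPP : P * P = P := by
    ext p q
    rw [Matrix.mul_apply, Fintype.sum_prod_type, hP]
    have e : ∀ x : Fin 2, ∑ y : Fin b, P p (x, y) * P (x, y) q =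
        if p.1 = x then (if x = q.1 then 1 / (b : ℝ) else 0) else 0 := by
      intro x
      by_cases h1 : p.1 = x
      · by_cases h2 : x = q.1
        · rw [if_pos h1, if_pos h2]
          have : ∀ y : Fin b, P p (x, y) * P (x, y) q = 1 / (b : ℝ) * (1 / (b : ℝ)) := by
            intro y
            rw [hP, hP, if_pos h1, if_pos h2]
          rw [Finset.sum_congr rfl fun y _ => this y, Finset.sum_const, Finset.card_univ,
            Fintype.card_fin, nsmul_eq_mul]
          field_simp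
        · rw [if_pos h1, if_neg h2]
          refine Finset.sum_eq_zero fun y _ => ?_
          rw [hP (x, y) q, if_neg h2, mul_zero]
      · rw [if_neg h1]
        refine Finset.sum_eq_zero fun y _ => ?_
        rw [hP p (x, y), if_neg h1, zero_mul]
    rw [Finset.sum_congr rfl fun x _ => e x, Finset.sum_ite_eq]
    simp
  have htr : P.trace = 2 := by
    rw [Matrix.trace, Fintype.sum_prod_type]
    have : ∀ (x : Fin 2) (y : Fin b), P.diag (x, y) = 1 / (b : ℝ) := by
      intro x y
      rw [Matrix.diag_apply, hP, if_pos rfl]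
    simp only [this, Finset.sum_const, Finset.card_univ, Fintype.card_fin, nsmul_eq_mul]
    push_cast
    field_simp
  have hG' : M * Mᵀ = (2 * (b : ℝ) - 2) • (1 - P) + (4 * (b : ℝ) - 2) • P := by
    ext p q
    rw [hG, Matrix.add_apply, Matrix.smul_apply, Matrix.smul_apply, Matrix.sub_apply,
      Matrix.one_apply, hP, smul_eq_mul, smul_eq_mul]
    by_cases h1 : p = q
    · rw [if_pos h1, if_pos h1, if_pos (by rw [h1])]
      field_simp
      ring
    · rw [if_neg h1, if_neg h1]
      by_cases h2 : p.1 = q.1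
      · rw [if_pos h2, if_pos h2]
        field_simp
        ring
      · rw [if_neg h2, if_neg h2]
        ring
  have key := two_eig (2 * b) (by omega) (by simp) M P hM hPt hPP 2 (2 * (b : ℝ) - 2)
    (4 * (b : ℝ) - 2) htr (by linarith) (by linarith) hG'
  have h1 := ew_ineq (2 * (b : ℝ)) (by linarith)
  rw [show 2 * (2 * (b : ℝ)) - 2 = 4 * (b : ℝ) - 2 by ring] at h1
  push_cast at key
  exact lt_of_lt_of_le h1 key

theorem barba (n : ℕ) (hn : 2 ≤ n) (M : Matrix (Fin n) (Fin n) ℝ)
    (hM : ∀ p q, M p q = 1 ∨ M p q = -1)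
    (hG : ∀ p q, (M * Mᵀ) p q = if p = q then (n : ℝ) else 1) :
    √((n : ℝ) - 1) < r n := by
  have hb2 : (2 : ℝ) ≤ n := by exact_mod_cast hn
  have hb0 : (n : ℝ) ≠ 0 := by positivity
  obtain ⟨P, hP⟩ : ∃ P : Matrix (Fin n) (Fin n) ℝ, ∀ p q, P p q = 1 / (n : ℝ) :=
    ⟨fun p q => 1 / (n : ℝ), fun _ _ => rfl⟩
  have hPt : Pᵀ = P := by
    ext p q
    rw [Matrix.transpose_apply, hP, hP]
  have hPP : P * P = P := by
    ext p q
    rw [Matrix.mul_apply, hP]
    simp only [hP, Finset.sum_const, Finset.card_univ, Fintype.card_fin, nsmul_eq_mul]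
    field_simp
  have htr : P.trace = 1 := by
    rw [Matrix.trace]
    simp only [Matrix.diag_apply, hP, Finset.sum_const, Finset.card_univ, Fintype.card_fin,
      nsmul_eq_mul]
    field_simp
  have hG' : M * Mᵀ = ((n : ℝ) - 1) • (1 - P) + (2 * (n : ℝ) - 1) • P := by
    ext p q
    rw [hG, Matrix.add_apply, Matrix.smul_apply, Matrix.smul_apply, Matrix.sub_apply,
      Matrix.one_apply, hP, smul_eq_mul, smul_eq_mul]
    by_cases h1 : p = q
    · rw [if_pos h1, if_pos h1]
      field_simp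
      ring
    · rw [if_neg h1, if_neg h1]
      field_simp
      ring
  have key := two_eig n (by omega) (by simp) M P hM hPt hPP 1 ((n : ℝ) - 1)
    (2 * (n : ℝ) - 1) htr (by linarith) (by linarith) hG'
  refine lt_of_lt_of_le ?_ key
  have h0 : (0 : ℝ) < n := by linarith
  rw [lt_div_iff₀ h0]
  have h3 : √((n : ℝ) - 1) < √(2 * (n : ℝ) - 1) :=
    Real.sqrt_lt_sqrt (by linarith) (by linarith)
  nlinarith

end Pool.Agent.Lib_helper97.SN
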