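import Pool.Agent.Lib_helper97.SN.P1

set_option autoImplicit false

open Matrix

namespace Pool.Agent.Lib_helper97.SN

open Pool.Agent.Results.MP_c77999_an.StrictMono

/-- a lower bound for `r n` from a sign matrix whose Gram matrix has two eigenvalues -/
theorem two_eig {ι : Type*} [Fintype ι] [DecidableEq ι] (n : ℕ) (hn : 0 < n)
    (hc : Fintype.card ι = n) (M P : Matrix ι ι ℝ) (hM : ∀ a b, M a b = 1 ∨ M a b = -1)
    (hPt : Pᵀ = P) (hPP : P * P = P) (s lam mu : ℝ) (htr : P.trace = s) (hl : 0 < lam)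
    (hm : 0 < mu) (hG : M * Mᵀ = lam • (1 - P) + mu • P) :
    (((n : ℝ) - s) * √lam + s * √mu) / n ≤ r n := by
  have hn0 : (0 : ℝ) < n := by exact_mod_cast hn
  obtain ⟨a, ha⟩ : ∃ a : ℝ, a = √lam := ⟨_, rfl⟩
  obtain ⟨b, hb⟩ : ∃ b : ℝ, b = √mu := ⟨_, rfl⟩
  have ha0 : 0 < a := by rw [ha]; exact Real.sqrt_pos.2 hl
  have hb0 : 0 < b := by rw [hb]; exact Real.sqrt_pos.2 hm
  have haa : a ^ 2 = lam := by rw [ha]; exact Real.sq_sqrt hl.le
  have hbb : b ^ 2 = mu := by rw [hb]; exact Real.sq_sqrt hm.le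
  rw [← ha, ← hb]
  rw [← haa, ← hbb] at hG
  obtain ⟨Q, hQ⟩ : ∃ Q : Matrix ι ι ℝ, Q = 1 - P := ⟨_, rfl⟩
  have hQt : Qᵀ = Q := by rw [hQ, Matrix.transpose_sub, Matrix.transpose_one, hPt]
  have hQQ : Q * Q = Q := by
    rw [hQ, sub_mul, mul_sub, mul_sub, one_mul, mul_one, one_mul, hPP]; simp
  have hPQ : P * Q = 0 := by rw [hQ, mul_sub, mul_one, hPP, sub_self]
  have hQP : Q * P = 0 := by rw [hQ, sub_mul, one_mul, hPP, sub_self]
  rw [← hQ] at hG
  obtain ⟨B, hB⟩ : ∃ B : Matrix ι ι ℝ, B = a⁻¹ • Q + b⁻¹ • P := ⟨_, rfl⟩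
  have hBt : Bᵀ = B := by
    rw [hB, Matrix.transpose_add, Matrix.transpose_smul, Matrix.transpose_smul, hQt, hPt]
  have hBG : B * (M * Mᵀ) = a • Q + b • P := by
    rw [hG, hB, add_mul, mul_add, mul_add]
    simp only [Matrix.smul_mul, Matrix.mul_smul, hQQ, hPP, hPQ, hQP, smul_zero, add_zero,
      zero_add, smul_smul]
    have e1 : a⁻¹ * a ^ 2 = a := by field_simp
    have e2 : b⁻¹ * b ^ 2 = b := by field_simp
    first
      | rw [e1, e2]
      | (rw [mul_comm (a ^ 2), mul_comm (b ^ 2), e1, e2])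
  obtain ⟨A, hA⟩ : ∃ A : Matrix ι ι ℝ, A = B * M := ⟨_, rfl⟩
  have hAA : A * Aᵀ = 1 := by
    rw [hA, Matrix.transpose_mul, hBt]
    have e0 : B * M * (Mᵀ * B) = (B * (M * Mᵀ)) * B := by
      simp only [Matrix.mul_assoc]
    rw [e0, hBG, hB, add_mul, mul_add, mul_add]
    simp only [Matrix.smul_mul, Matrix.mul_smul, hQQ, hPP, hPQ, hQP, smul_zero, add_zero,
      zero_add, smul_smul]
    have e1 : a * a⁻¹ = 1 := mul_inv_cancel₀ ha0.ne'
    have e2 : b * b⁻¹ = 1 := mul_inv_cancel₀ hb0.ne'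
    have e3 : a⁻¹ * a = 1 := inv_mul_cancel₀ ha0.ne'
    have e4 : b⁻¹ * b = 1 := inv_mul_cancel₀ hb0.ne'
    first
      | (rw [e1, e2, one_smul, one_smul, hQ]; simp)
      | (rw [e3, e4, one_smul, one_smul, hQ]; simp)
  have hAA' : Aᵀ * A = 1 := _root_.mul_eq_one_comm.1 hAA
  have hcontr : ∀ v : ι → ℝ, ∑ c, (A.mulVec v c) ^ 2 ≤ ∑ c, v c ^ 2 := by
    intro v
    apply le_of_eq
    have e1 : ∑ c, (A.mulVec v c) ^ 2 = (A *ᵥ v) ⬝ᵥ (A *ᵥ v) := by
      simp only [dotProduct]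
      exact Finset.sum_congr rfl fun c _ => by ring
    have e2 : ∑ c, v c ^ 2 = v ⬝ᵥ v := by
      simp only [dotProduct]
      exact Finset.sum_congr rfl fun c _ => by ring
    rw [e1, e2, Matrix.dotProduct_mulVec, ← Matrix.mulVec_transpose, Matrix.mulVec_mulVec, hAA',
      Matrix.one_mulVec]
  obtain ⟨w, hw⟩ : ∃ w : ℝ, w = 1 / √(n : ℝ) := ⟨_, rfl⟩
  have hww : w ^ 2 = 1 / n := by
    rw [hw, div_pow, one_pow, Real.sq_sqrt hn0.le]
  have hx : ∑ _c : ι, w ^ 2 = 1 := by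
    rw [Finset.sum_const, Finset.card_univ, hc, nsmul_eq_mul, hww]
    field_simp
  have key := lower n hc M A hM hcontr (fun _ => w) (fun _ => w) hx hx
  refine le_trans (le_of_eq ?_) key
  have e1 : ∑ c, ∑ d, w * (M c d * A c d) * w = w ^ 2 * (A * Mᵀ).trace := by
    rw [Matrix.trace, Finset.mul_sum]
    refine Finset.sum_congr rfl fun c _ => ?_
    rw [Matrix.diag_apply, Matrix.mul_apply, Finset.mul_sum]
    refine Finset.sum_congr rfl fun d _ => ?_
    rw [Matrix.transpose_apply]; ring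
  have e2 : A * Mᵀ = a • Q + b • P := by rw [hA, Matrix.mul_assoc, hBG]
  rw [e1, e2, Matrix.trace_add, Matrix.trace_smul, Matrix.trace_smul, hQ, Matrix.trace_sub,
    Matrix.trace_one, hc, htr, hww, smul_eq_mul, smul_eq_mul]
  field_simp

theorem ew_ineq (x : ℝ) (hx : 2 ≤ x) :
    √(x - 1) < ((x - 2) * √(x - 2) + 2 * √(2 * x - 2)) / x := by
  have hx0 : 0 < x := by linarith
  obtain ⟨c, hc⟩ : ∃ c : ℝ, c = √(x - 1) := ⟨_, rfl⟩
  obtain ⟨t, ht⟩ : ∃ t : ℝ, t = √2 := ⟨_, rfl⟩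
  obtain ⟨d, hd⟩ : ∃ d : ℝ, d = √(x - 2) := ⟨_, rfl⟩
  have hc0 : 0 < c := by rw [hc]; exact Real.sqrt_pos.2 (by linarith)
  have hcc : c ^ 2 = x - 1 := by rw [hc]; exact Real.sq_sqrt (by linarith)
  have hd0 : 0 ≤ d := by rw [hd]; exact Real.sqrt_nonneg _
  have hdd : d ^ 2 = x - 2 := by rw [hd]; exact Real.sq_sqrt (by linarith)
  have ht0 : 0 < t := by rw [ht]; exact Real.sqrt_pos.2 (by norm_num)
  have htt : t ^ 2 = 2 := by rw [ht]; exact Real.sq_sqrt (by norm_num)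
  have ht1 : 1.41 < t := by
    by_contra h
    push Not at h
    nlinarith
  have h2 : √(2 * x - 2) = t * c := by
    rw [show 2 * x - 2 = 2 * (x - 1) by ring, Real.sqrt_mul (by norm_num), ht, hc]
  rw [h2, ← hc, ← hd, lt_div_iff₀ hx0]
  by_cases h3 : x - 2 * t ≤ 0
  · have h4 : (x - 2 * t) * c ≤ 0 := mul_nonpos_of_nonpos_of_nonneg h3 hc0.le
    rcases eq_or_lt_of_le hx with h5 | h5
    · have h6 : (x - 2 * t) * c < 0 := by
        apply mul_neg_of_neg_of_pos _ hc0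
        linarith
      have h7 : 0 ≤ (x - 2) * d := mul_nonneg (by linarith) hd0
      nlinarith
    · have h8 : 0 < d := by rw [hd]; exact Real.sqrt_pos.2 (by linarith)
      have h7 : 0 < (x - 2) * d := mul_pos (by linarith) h8
      nlinarith
  · push Not at h3
    have h4 : (x - 2 * t) * c < (x - 2) * d := by
      apply lt_of_pow_lt_pow_left₀ 2 (mul_nonneg (by linarith) hd0)
      rw [mul_pow, mul_pow, hcc, hdd]
      have h5 : (x - 2) ^ 2 * (x - 2) - (x - 2 * t) ^ 2 * (x - 1) =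
          x * ((4 * t - 5) * x - (4 * t - 4)) + (x - 1) * (4 * (2 - t ^ 2)) := by ring
      have h6 : 0 < x * ((4 * t - 5) * x - (4 * t - 4)) := by
        apply mul_pos hx0
        nlinarith
      rw [htt] at h5
      linarith
    nlinarith

end Pool.Agent.Lib_helper97.SN
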