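import Pool.Agent.Results.MP_c77999_an.StrictMono

set_option autoImplicit false

open scoped Matrix.Norms.L2Operator ComplexConjugate
open Matrix

namespace Pool.Agent.Lib_helper97.SN

open Pool.Agent.Results.MP_c77999_an.StrictMono

theorem lower {ι : Type*} [Fintype ι] [DecidableEq ι] (n : ℕ) (hn : Fintype.card ι = n)
    (M A : Matrix ι ι ℝ) (hM : ∀ a b, M a b = 1 ∨ M a b = -1)
    (hA : ∀ v : ι → ℝ, ∑ a, (A.mulVec v a) ^ 2 ≤ ∑ a, v a ^ 2)
    (x y : ι → ℝ) (hx : ∑ a, x a ^ 2 = 1) (hy : ∑ a, y a ^ 2 = 1) :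
    ∑ a, ∑ b, x a * (M a b * A a b) * y b ≤ r n := by
  have e : ι ≃ Fin n := Fintype.equivFinOfCardEq hn
  obtain ⟨M', hM'⟩ : ∃ M' : Matrix (Fin n) (Fin n) ℂ,
      ∀ i j, M' i j = ((M (e.symm i) (e.symm j) : ℝ) : ℂ) :=
    ⟨fun i j => ((M (e.symm i) (e.symm j) : ℝ) : ℂ), fun _ _ => rfl⟩
  obtain ⟨A', hA'⟩ : ∃ A' : Matrix (Fin n) (Fin n) ℂ,
      ∀ i j, A' i j = ((A (e.symm i) (e.symm j) : ℝ) : ℂ) :=
    ⟨fun i j => ((A (e.symm i) (e.symm j) : ℝ) : ℂ), fun _ _ => rfl⟩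
  have hMs : M' ∈ signMatrices n := by
    intro i j
    rw [hM']
    rcases hM (e.symm i) (e.symm j) with h | h
    · left; rw [h]; simp
    · right; rw [h]; simp
  have hAn : ‖A'‖ ≤ 1 := by
    apply norm_le_one_of
    intro v
    have h1 := hA (fun a => (v (e a)).re)
    have h2 := hA (fun a => (v (e a)).im)
    have hre : ∀ i, ((A' *ᵥ v) i).re = (A *ᵥ fun a => (v (e a)).re) (e.symm i) := by
      intro i
      simp only [Matrix.mulVec, dotProduct]
      rw [Complex.re_sum, ← e.symm.sum_comp (fun b => A (e.symm i) b * (v (e b)).re)]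
      refine Finset.sum_congr rfl fun j _ => ?_
      rw [hA', Complex.re_ofReal_mul, e.apply_symm_apply]
    have him : ∀ i, ((A' *ᵥ v) i).im = (A *ᵥ fun a => (v (e a)).im) (e.symm i) := by
      intro i
      simp only [Matrix.mulVec, dotProduct]
      rw [Complex.im_sum, ← e.symm.sum_comp (fun b => A (e.symm i) b * (v (e b)).im)]
      refine Finset.sum_congr rfl fun j _ => ?_
      rw [hA', Complex.im_ofReal_mul, e.apply_symm_apply]
    have hn1 : ∀ z : ℂ, ‖z‖ ^ 2 = z.re ^ 2 + z.im ^ 2 := by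
      intro z
      rw [Complex.sq_norm, Complex.normSq_apply]; ring
    have h3 : ∑ i, ‖(A' *ᵥ v) i‖ ^ 2 = ∑ a, (A *ᵥ fun a => (v (e a)).re) a ^ 2 +
        ∑ a, (A *ᵥ fun a => (v (e a)).im) a ^ 2 := by
      rw [← Finset.sum_add_distrib, ← e.symm.sum_comp]
      refine Finset.sum_congr rfl fun i _ => ?_
      rw [hn1, hre, him]
    have h4 : ∑ j, ‖v j‖ ^ 2 = ∑ a, (v (e a)).re ^ 2 + ∑ a, (v (e a)).im ^ 2 := by
      rw [← Finset.sum_add_distrib, ← e.sum_comp]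
      refine Finset.sum_congr rfl fun a _ => ?_
      rw [hn1]
    rw [h3, h4]
    exact add_le_add h1 h2
  have hB : ‖Matrix.hadamard M' A'‖ ≤ r n :=
    (le_schurNorm M' A' hAn).trans (schurNorm_le_r hMs)
  refine le_trans ?_ hB
  obtain ⟨v, hv⟩ : ∃ v : Fin n → ℂ, ∀ j, v j = ((y (e.symm j) : ℝ) : ℂ) := ⟨_, fun _ => rfl⟩
  have h5 := mulVec_sq_le (Matrix.hadamard M' A') v
  have hvs : ∑ j, ‖v j‖ ^ 2 = 1 := by
    rw [← hy, ← e.symm.sum_comp (fun a => y a ^ 2)]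
    refine Finset.sum_congr rfl fun j _ => ?_
    rw [hv, Complex.norm_real, Real.norm_eq_abs, sq_abs]
  rw [hvs, mul_one] at h5
  have h6 : ∀ i, (Matrix.hadamard M' A' *ᵥ v) i =
      ((∑ b, M (e.symm i) b * A (e.symm i) b * y b : ℝ) : ℂ) := by
    intro i
    simp only [Matrix.mulVec, dotProduct, Matrix.hadamard_apply]
    rw [← e.symm.sum_comp (fun b => M (e.symm i) b * A (e.symm i) b * y b)]
    push_cast
    refine Finset.sum_congr rfl fun j _ => ?_
    rw [hM', hA', hv]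
  have h7 : ∑ i, ‖(Matrix.hadamard M' A' *ᵥ v) i‖ ^ 2 =
      ∑ a, (∑ b, M a b * A a b * y b) ^ 2 := by
    rw [← e.symm.sum_comp (fun a => (∑ b, M a b * A a b * y b) ^ 2)]
    refine Finset.sum_congr rfl fun i _ => ?_
    rw [h6, Complex.norm_real, Real.norm_eq_abs, sq_abs]
  rw [h7] at h5
  have h8 := Finset.sum_mul_sq_le_sq_mul_sq Finset.univ x (fun a => ∑ b, M a b * A a b * y b)
  rw [hx, one_mul] at h8
  have h9 : ∑ a, ∑ b, x a * (M a b * A a b) * y b = ∑ a, x a * ∑ b, M a b * A a b * y b := by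
    refine Finset.sum_congr rfl fun a _ => ?_
    rw [Finset.mul_sum]
    exact Finset.sum_congr rfl fun b _ => by ring
  rw [h9]
  have h10 := h8.trans h5
  exact (abs_le_of_sq_le_sq' h10 (norm_nonneg _)).2

end Pool.Agent.Lib_helper97.SN
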